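import Pool.Agent.Helper68.SDP.Spec

/-!
# Module RE: rescaling a positive semidefinite factorization
-/

namespace Pool.Agent.Helper55.SDP

open Matrix Finset

open scoped MatrixOrder ComplexOrder

variable {r : ℕ}

/-- square real matrices -/
abbrev Mt (r : ℕ) := Matrix (Fin r) (Fin r) ℝ

theorem psd_decomp {A : Mt r} (hA : A.PosSemidef) : ∃ V : Mt r, A = Vᵀ * V := by
  obtain ⟨B, hB⟩ := CStarAlgebra.nonneg_iff_eq_star_mul_self.mp hA.nonneg
  refine ⟨B, ?_⟩
  rw [hB, star_eq_conjTranspose, conjTranspose_eq_transpose_of_trivial]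

theorem psd_tt (V : Mt r) : (Vᵀ * V).PosSemidef := by
  have := posSemidef_conjTranspose_mul_self V
  rwa [conjTranspose_eq_transpose_of_trivial] at this

theorem psd_conj {A : Mt r} (hA : A.PosSemidef) (S : Mt r) : (Sᵀ * A * S).PosSemidef := by
  have := hA.conjTranspose_mul_mul_same S
  rwa [conjTranspose_eq_transpose_of_trivial] at this

theorem psd_conj' {A : Mt r} (hA : A.PosSemidef) (S : Mt r) : (S * A * Sᵀ).PosSemidef := by
  have := hA.mul_mul_conjTranspose_same S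
  rwa [conjTranspose_eq_transpose_of_trivial] at this

theorem psd_of {A : Mt r} (h1 : Aᵀ = A) (h2 : ∀ x : Fin r → ℝ, 0 ≤ x ⬝ᵥ (A *ᵥ x)) :
    A.PosSemidef := by
  refine PosSemidef.of_dotProduct_mulVec_nonneg ?_ ?_
  · rw [IsHermitian, conjTranspose_eq_transpose_of_trivial]
    exact h1
  · intro x
    rw [star_trivial]
    exact h2 x

theorem trace_tt (V : Mt r) : (Vᵀ * V).trace = ∑ i, ∑ j, V i j ^ 2 := by
  simp only [trace, diag_apply, mul_apply, transpose_apply]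
  rw [Finset.sum_comm]
  exact Finset.sum_congr rfl fun i _ => Finset.sum_congr rfl fun j _ => by ring

theorem le_trace {A : Mt r} (hA : A.PosSemidef) : (A.trace • (1 : Mt r) - A).PosSemidef := by
  obtain ⟨V, hV⟩ := psd_decomp hA
  have hs : Aᵀ = A := by
    rw [hV, transpose_mul, transpose_transpose]
  refine psd_of ?_ ?_
  · rw [transpose_sub, transpose_smul, transpose_one, hs]
  · intro x
    have e1 : x ⬝ᵥ (A *ᵥ x) = ∑ i, (∑ j, V i j * x j) ^ 2 := by
      rw [hV, ← mulVec_mulVec, dotProduct_mulVec, vecMul_transpose, dotProduct]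
      exact Finset.sum_congr rfl fun i _ => by
        simp only [mulVec, dotProduct]
        ring
    rw [sub_mulVec, dotProduct_sub, smul_mulVec, one_mulVec, dotProduct_smul, e1, smul_eq_mul,
      hV, trace_tt, sub_nonneg, Finset.sum_mul]
    refine Finset.sum_le_sum fun i _ => ?_
    have := Finset.sum_mul_sq_le_sq_mul_sq Finset.univ (fun j => V i j) x
    refine this.trans (le_of_eq ?_)
    congr 1
    rw [dotProduct]
    exact Finset.sum_congr rfl fun j _ => by ring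

theorem psd_le_mul {A : Mt r} {a b : ℝ} (h : (a • (1 : Mt r) - A).PosSemidef) (hab : a ≤ b) :
    (b • (1 : Mt r) - A).PosSemidef := by
  have h1 : b • (1 : Mt r) - A = (b - a) • (1 : Mt r) + (a • (1 : Mt r) - A) := by
    rw [sub_smul]
    abel
  rw [h1]
  exact (PosSemidef.one.smul (sub_nonneg.2 hab)).add h

/-- the trace of a product of positive semidefinite matrices is nonnegative -/
theorem trace_mul_nonneg {A B : Mt r} (hA : A.PosSemidef) (hB : B.PosSemidef) :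
    0 ≤ (A * B).trace := by
  obtain ⟨V, rfl⟩ := psd_decomp hA
  obtain ⟨U, rfl⟩ := psd_decomp hB
  have : (Vᵀ * V * (Uᵀ * U)).trace = ((U * Vᵀ)ᵀ * (U * Vᵀ)).trace := by
    rw [transpose_mul, transpose_transpose, Matrix.trace_mul_comm (V * Uᵀ) (U * Vᵀ)]
    rw [show Vᵀ * V * (Uᵀ * U) = (Vᵀ * V * Uᵀ) * U by simp only [Matrix.mul_assoc],
      Matrix.trace_mul_comm (Vᵀ * V * Uᵀ) U]
    simp only [Matrix.mul_assoc]
  rw [this]
  exact (psd_tt _).trace_nonneg

/-! ### Congruence -/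

/-- action on the first factor -/
noncomputable def cP (S P : Mt r) : Mt r := (S⁻¹)ᵀ * P * S⁻¹

/-- action on the second factor -/
def cQ (S Q : Mt r) : Mt r := S * Q * Sᵀ

theorem cPcQ_trace {S : Mt r} (hS : IsUnit S.det) (P Q : Mt r) :
    (cP S P * cQ S Q).trace = (P * Q).trace := by
  unfold cP cQ
  have h1 : (S⁻¹)ᵀ * P * S⁻¹ * (S * Q * Sᵀ) = (S⁻¹)ᵀ * (P * Q * Sᵀ) := by
    calc (S⁻¹)ᵀ * P * S⁻¹ * (S * Q * Sᵀ) = (S⁻¹)ᵀ * P * (S⁻¹ * S) * Q * Sᵀ := by
          simp only [Matrix.mul_assoc]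
      _ = (S⁻¹)ᵀ * (P * Q * Sᵀ) := by
          rw [nonsing_inv_mul S hS, Matrix.mul_one]
          simp only [Matrix.mul_assoc]
  rw [h1, Matrix.trace_mul_comm]
  have h2 : P * Q * Sᵀ * (S⁻¹)ᵀ = P * Q := by
    rw [Matrix.mul_assoc, ← transpose_mul, nonsing_inv_mul S hS, transpose_one, Matrix.mul_one]
  rw [h2]

theorem cP_psd {P : Mt r} (hP : P.PosSemidef) (S : Mt r) : (cP S P).PosSemidef := psd_conj hP _

theorem cQ_psd {Q : Mt r} (hQ : Q.PosSemidef) (S : Mt r) : (cQ S Q).PosSemidef := psd_conj' hQ _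

/-! ### A good basis (Cramer) -/

theorem row_coeff {B1 : Mt r} (hB : B1.det ≠ 0) (v : Fin r → ℝ) (i : Fin r) :
    (v ᵥ* B1⁻¹) i = (B1.updateRow i v).det / B1.det := by
  have h1 := mulVec_cramer B1ᵀ v
  rw [det_transpose, mulVec_transpose] at h1
  have h2 : v = (B1.det)⁻¹ • (cramer B1ᵀ v ᵥ* B1) := by
    rw [h1, smul_smul, inv_mul_cancel₀ hB, one_smul]
  have hu : IsUnit B1.det := isUnit_iff_ne_zero.2 hB
  calc (v ᵥ* B1⁻¹) i = (((B1.det)⁻¹ • (cramer B1ᵀ v ᵥ* B1)) ᵥ* B1⁻¹) i := by rw [← h2]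
    _ = ((B1.det)⁻¹ • cramer B1ᵀ v) i := by
        rw [smul_vecMul, vecMul_vecMul, mul_nonsing_inv B1 hu, vecMul_one]
    _ = _ := by
        rw [Pi.smul_apply, cramer_transpose_apply, smul_eq_mul, inv_mul_eq_div]

theorem exists_basis {J : Type} [Fintype J] (w : J → Fin r → ℝ)
    (h : ∃ s : Fin r → J, (Matrix.of fun i => w (s i)).det ≠ 0) :
    ∃ s : Fin r → J, (Matrix.of fun i => w (s i)).det ≠ 0 ∧
      ∀ j i, |(w j ᵥ* (Matrix.of fun i => w (s i))⁻¹) i| ≤ 1 := by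
  classical
  obtain ⟨s0, hs0⟩ := h
  obtain ⟨s, -, hs⟩ := Finset.exists_max_image (Finset.univ : Finset (Fin r → J))
    (fun s => |(Matrix.of fun i => w (s i)).det|) ⟨s0, Finset.mem_univ _⟩
  have hne : (Matrix.of fun i => w (s i)).det ≠ 0 := by
    have := hs s0 (Finset.mem_univ _)
    rw [← abs_pos] at hs0 ⊢
    linarith
  refine ⟨s, hne, fun j i => ?_⟩
  rw [row_coeff hne, abs_div, div_le_one (abs_pos.2 hne)]
  have h1 := hs (Function.update s i j) (Finset.mem_univ _)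
  refine le_trans (le_of_eq ?_) h1
  congr 2
  ext a c
  by_cases hac : a = i
  · subst hac
    simp
  · simp [Matrix.updateRow_ne hac, Function.update_of_ne hac]

/-! ### The rescaling -/

theorem cP_add (S P P' : Mt r) : cP S (P + P') = cP S P + cP S P' := by
  unfold cP
  rw [Matrix.mul_add, Matrix.add_mul]

theorem cP_sub (S P P' : Mt r) : cP S (P - P') = cP S P - cP S P' := by
  unfold cP
  rw [Matrix.mul_sub, Matrix.sub_mul]

theorem cP_smul (S P : Mt r) (a : ℝ) : cP S (a • P) = a • cP S P := by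
  unfold cP
  rw [Matrix.mul_smul, Matrix.smul_mul]

theorem cP_sum {ι : Type*} (S : Mt r) (s : Finset ι) (P : ι → Mt r) :
    cP S (∑ i ∈ s, P i) = ∑ i ∈ s, cP S (P i) := by
  unfold cP
  rw [Matrix.mul_sum, Matrix.sum_mul]

theorem cP_self {B : Mt r} (hB : IsUnit B.det) : cP B (Bᵀ * B) = 1 := by
  unfold cP
  calc (B⁻¹)ᵀ * (Bᵀ * B) * B⁻¹ = ((B⁻¹)ᵀ * Bᵀ) * (B * B⁻¹) := by simp only [Matrix.mul_assoc]
    _ = 1 := by
        rw [← transpose_mul, mul_nonsing_inv B hB, transpose_one, Matrix.mul_one]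

theorem vecMul_row (V B : Mt r) (i : Fin r) : (V * B) i = V i ᵥ* B := by
  ext k
  simp [mul_apply, vecMul, dotProduct]

theorem re : Pool.Agent.Helper68.SDP.specRE := by
  intro F X _ _ _ _ r hr P Q b hb hP hQ hPQ
  choose V hV using fun φ => psd_decomp (hP φ)
  choose U hU using fun x => psd_decomp (hQ x)
  have hF : (0 : ℝ) < Fintype.card F := by exact_mod_cast Fintype.card_pos
  have hr1 : (1 : ℝ) ≤ r := by exact_mod_cast hr
  have hr0 : (0 : ℝ) < r := by linarith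
  -- products of rows
  have hVU : ∀ φ x i j, (∑ l, U x j l * V φ i l) ^ 2 ≤ b := by
    intro φ x i j
    have h1 : (P φ * Q x).trace = ∑ j, ∑ i, ((U x * (V φ)ᵀ) j i) ^ 2 := by
      have e1 : (P φ * Q x).trace = ((U x * (V φ)ᵀ)ᵀ * (U x * (V φ)ᵀ)).trace := by
        rw [hV, hU, transpose_mul, transpose_transpose,
          Matrix.trace_mul_comm (V φ * (U x)ᵀ) (U x * (V φ)ᵀ)]
        rw [show (V φ)ᵀ * V φ * ((U x)ᵀ * U x) = ((V φ)ᵀ * V φ * (U x)ᵀ) * U x by
          simp only [Matrix.mul_assoc], Matrix.trace_mul_comm ((V φ)ᵀ * V φ * (U x)ᵀ) (U x)]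
        simp only [Matrix.mul_assoc]
      rw [e1, trace_tt]
    have h2 : ((U x * (V φ)ᵀ) j i) ^ 2 ≤ ∑ j, ∑ i, ((U x * (V φ)ᵀ) j i) ^ 2 := by
      have h3 := Finset.single_le_sum (f := fun i => ((U x * (V φ)ᵀ) j i) ^ 2)
        (fun i _ => sq_nonneg _) (Finset.mem_univ i)
      have h4 := Finset.single_le_sum (f := fun j => ∑ i, ((U x * (V φ)ᵀ) j i) ^ 2)
        (fun j _ => Finset.sum_nonneg fun i _ => sq_nonneg _) (Finset.mem_univ j)
      exact h3.trans h4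
    rw [← h1] at h2
    have h5 : (U x * (V φ)ᵀ) j i = ∑ l, U x j l * V φ i l := by
      simp [mul_apply]
    rw [← h5]
    exact h2.trans (hPQ φ x)
  -- the small number
  obtain ⟨ε, hε, hεU⟩ : ∃ ε : ℝ, 0 < ε ∧ ∀ x j k, (ε * U x j k) ^ 2 ≤ b := by
    obtain ⟨M, hM⟩ : ∃ M : ℝ, M = ∑ x, ∑ j, ∑ k, U x j k ^ 2 := ⟨_, rfl⟩
    have hM0 : 0 ≤ M := by
      rw [hM]
      positivity
    have hle : ∀ x j k, U x j k ^ 2 ≤ M := by
      intro x j k
      have h3 := Finset.single_le_sum (f := fun k => U x j k ^ 2)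
        (fun i _ => sq_nonneg _) (Finset.mem_univ k)
      have h4 := Finset.single_le_sum (f := fun j => ∑ k, U x j k ^ 2)
        (fun j _ => Finset.sum_nonneg fun i _ => sq_nonneg _) (Finset.mem_univ j)
      have h5 := Finset.single_le_sum (f := fun x => ∑ j, ∑ k, U x j k ^ 2)
        (fun x _ => Finset.sum_nonneg fun j _ => Finset.sum_nonneg fun i _ => sq_nonneg _)
        (Finset.mem_univ x)
      rw [hM]
      exact (h3.trans h4).trans h5
    refine ⟨Real.sqrt (b / (M + 1)), Real.sqrt_pos.2 (by positivity), fun x j k => ?_⟩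
    rw [mul_pow, Real.sq_sqrt (by positivity), div_mul_eq_mul_div, div_le_iff₀ (by positivity)]
    exact mul_le_mul_of_nonneg_left ((hle x j k).trans (by linarith)) hb.le
  -- the vectors
  obtain ⟨w, hw⟩ : ∃ w : (F × Fin r) ⊕ Fin r → Fin r → ℝ,
      w = Sum.elim (fun q => V q.1 q.2) (fun k => Pi.single k ε) := ⟨_, rfl⟩
  have hdet : ∃ s : Fin r → (F × Fin r) ⊕ Fin r, (Matrix.of fun i => w (s i)).det ≠ 0 := by
    refine ⟨fun i => Sum.inr i, ?_⟩
    have h1 : (Matrix.of fun i => w (Sum.inr i)) = diagonal fun _ : Fin r => ε := by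
      ext i k
      rw [hw]
      simp only [Sum.elim_inr, of_apply, diagonal_apply, Pi.single_apply]
      by_cases h : i = k
      · simp [h]
      · simp [h, Ne.symm h]
    rw [h1, det_diagonal, Finset.prod_const]
    exact pow_ne_zero _ hε.ne'
  obtain ⟨s, hne, hcoef⟩ := exists_basis w hdet
  obtain ⟨B1, hB1⟩ : ∃ B1 : Mt r, B1 = Matrix.of fun i => w (s i) := ⟨_, rfl⟩
  rw [← hB1] at hne hcoef
  have hu1 : IsUnit B1.det := isUnit_iff_ne_zero.2 hne
  have hUB : ∀ x j k, (∑ l, U x j l * B1 k l) ^ 2 ≤ b := by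
    intro x j k
    have h1 : ∀ l, B1 k l = w (s k) l := fun l => by rw [hB1]; rfl
    simp only [h1]
    rcases s k with ⟨φ, i⟩ | k'
    · rw [hw]
      exact hVU φ x i j
    · rw [hw]
      simp only [Sum.elim_inr, Pi.single_apply, mul_ite, mul_zero, Finset.sum_ite_eq',
        Finset.mem_univ, if_true]
      rw [mul_comm]
      exact hεU x j k'
  -- first rescaling
  have hP1tr : ∀ φ, (cP B1 (P φ)).trace ≤ (r : ℝ) ^ 2 := by
    intro φ
    have h1 : cP B1 (P φ) = (V φ * B1⁻¹)ᵀ * (V φ * B1⁻¹) := by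
      unfold cP
      rw [hV, transpose_mul]
      simp only [Matrix.mul_assoc]
    rw [h1, trace_tt]
    have h2 : ∀ i k, ((V φ * B1⁻¹) i k) ^ 2 ≤ 1 := by
      intro i k
      have h3 := hcoef (Sum.inl (φ, i)) k
      rw [hw] at h3
      simp only [Sum.elim_inl] at h3
      rw [← vecMul_row] at h3
      rw [← sq_abs]
      exact pow_le_one₀ (abs_nonneg _) h3
    calc ∑ i, ∑ j, ((V φ * B1⁻¹) i j) ^ 2 ≤ ∑ _i : Fin r, ∑ _j : Fin r, (1 : ℝ) :=
          Finset.sum_le_sum fun i _ => Finset.sum_le_sum fun j _ => h2 i j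
      _ = (r : ℝ) ^ 2 := by
          simp
          ring
  have hQ1tr : ∀ x, (cQ B1 (Q x)).trace ≤ (r : ℝ) ^ 2 * b := by
    intro x
    have h1 : cQ B1 (Q x) = (U x * B1ᵀ)ᵀ * (U x * B1ᵀ) := by
      unfold cQ
      rw [hU, transpose_mul, transpose_transpose]
      simp only [Matrix.mul_assoc]
    rw [h1, trace_tt]
    calc ∑ j, ∑ k, ((U x * B1ᵀ) j k) ^ 2 ≤ ∑ _j : Fin r, ∑ _k : Fin r, b := by
          refine Finset.sum_le_sum fun j _ => Finset.sum_le_sum fun k _ => ?_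
          have h2 : (U x * B1ᵀ) j k = ∑ l, U x j l * B1 k l := by simp [mul_apply]
          rw [h2]
          exact hUB x j k
      _ = (r : ℝ) ^ 2 * b := by
          simp
          ring
  have hP1 : ∀ φ, (cP B1 (P φ)).PosSemidef := fun φ => cP_psd (hP φ) B1
  have hQ1 : ∀ x, (cQ B1 (Q x)).PosSemidef := fun x => cQ_psd (hQ x) B1
  have hPQ1 : ∀ φ x, (cP B1 (P φ) * cQ B1 (Q x)).trace = (P φ * Q x).trace :=
    fun φ x => cPcQ_trace hu1 _ _
  obtain ⟨P1, hP1d⟩ : ∃ P1 : F → Mt r, P1 = fun φ => cP B1 (P φ) := ⟨_, rfl⟩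
  obtain ⟨Q1, hQ1d⟩ : ∃ Q1 : X → Mt r, Q1 = fun x => cQ B1 (Q x) := ⟨_, rfl⟩
  have hP1' : ∀ φ, (P1 φ).PosSemidef := fun φ => by rw [hP1d]; exact hP1 φ
  have hQ1' : ∀ x, (Q1 x).PosSemidef := fun x => by rw [hQ1d]; exact hQ1 x
  have hPQ1' : ∀ φ x, (P1 φ * Q1 x).trace = (P φ * Q x).trace := fun φ x => by
    rw [hP1d, hQ1d]; exact hPQ1 φ x
  have hP1tr' : ∀ φ, (P1 φ).trace ≤ (r : ℝ) ^ 2 := fun φ => by rw [hP1d]; exact hP1tr φ
  have hQ1tr' : ∀ x, (Q1 x).trace ≤ (r : ℝ) ^ 2 * b := fun x => by rw [hQ1d]; exact hQ1tr x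
  -- second rescaling
  obtain ⟨W, hW⟩ : ∃ W : Mt r, W = ((Fintype.card F : ℝ))⁻¹ • ∑ φ, P1 φ +
      ((r : ℝ) ^ 2)⁻¹ • (1 : Mt r) := ⟨_, rfl⟩
  have hsum : (∑ φ, P1 φ).PosSemidef := posSemidef_sum _ fun φ _ => hP1' φ
  have hWpd : W.PosDef := by
    rw [hW]
    exact (PosDef.one.smul (by positivity)).posSemidef_add (hsum.smul (by positivity))
  obtain ⟨B, hB⟩ := psd_decomp hWpd.posSemidef
  have huB : IsUnit B.det := by
    have h1 : IsUnit W.det := (isUnit_iff_isUnit_det W).1 hWpd.isUnit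
    rw [hB, det_mul, det_transpose] at h1
    exact isUnit_of_mul_isUnit_left h1
  have hcW : cP B W = 1 := by rw [hB]; exact cP_self huB
  have hQtr : ∀ x, (cQ B (Q1 x)).trace ≤ 2 * b := by
    intro x
    have h1 : (cQ B (Q1 x)).trace = (W * Q1 x).trace := by
      unfold cQ
      rw [Matrix.trace_mul_comm, hB, ← Matrix.mul_assoc]
    rw [h1, hW, Matrix.add_mul, trace_add, Matrix.smul_mul, trace_smul, Matrix.sum_mul, trace_sum,
      Matrix.smul_mul, trace_smul, Matrix.one_mul, smul_eq_mul, smul_eq_mul]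
    have h2 : ∑ φ, (P1 φ * Q1 x).trace ≤ (Fintype.card F : ℝ) * b := by
      calc ∑ φ, (P1 φ * Q1 x).trace ≤ ∑ _φ : F, b :=
            Finset.sum_le_sum fun φ _ => by rw [hPQ1']; exact hPQ φ x
        _ = _ := by simp
    have h3 : ((Fintype.card F : ℝ))⁻¹ * ∑ φ, (P1 φ * Q1 x).trace ≤ b := by
      rw [inv_mul_le_iff₀ hF]
      exact h2
    have h4 : ((r : ℝ) ^ 2)⁻¹ * (Q1 x).trace ≤ b := by
      rw [inv_mul_le_iff₀ (by positivity)]
      exact hQ1tr' x
    linarith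
  refine ⟨fun φ => cP B (P1 φ), fun x => cQ B (Q1 x), fun φ => cP_psd (hP1' φ) B,
    fun x => cQ_psd (hQ1' x) B, fun φ x => ?_, fun φ => ?_, ?_, fun x => ?_, ?_⟩
  · rw [cPcQ_trace huB, hPQ1']
  · have h1 : (r : ℝ) ^ 4 • (1 : Mt r) - cP B (P1 φ) = cP B ((r : ℝ) ^ 4 • W - P1 φ) := by
      rw [cP_sub, cP_smul, hcW]
    rw [h1]
    refine cP_psd ?_ B
    have h2 : (r : ℝ) ^ 4 • W - P1 φ = ((r : ℝ) ^ 4 * ((Fintype.card F : ℝ))⁻¹) • ∑ φ, P1 φ +
        ((r : ℝ) ^ 2 • (1 : Mt r) - P1 φ) := by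
      rw [hW, smul_add, smul_smul, smul_smul]
      have : (r : ℝ) ^ 4 * ((r : ℝ) ^ 2)⁻¹ = (r : ℝ) ^ 2 := by
        field_simp
      rw [this]
      abel
    rw [h2]
    exact (hsum.smul (by positivity)).add (psd_le_mul (le_trace (hP1' φ)) (hP1tr' φ))
  · have h1 : (Fintype.card F : ℝ) • (1 : Mt r) - ∑ φ, cP B (P1 φ) =
        cP B ((Fintype.card F : ℝ) • W - ∑ φ, P1 φ) := by
      rw [cP_sub, cP_smul, hcW, cP_sum]
    rw [h1]
    refine cP_psd ?_ B
    have h2 : (Fintype.card F : ℝ) • W - ∑ φ, P1 φ =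
        ((Fintype.card F : ℝ) * ((r : ℝ) ^ 2)⁻¹) • (1 : Mt r) := by
      rw [hW, smul_add, smul_smul, smul_smul, mul_inv_cancel₀ hF.ne', one_smul]
      abel
    rw [h2]
    exact PosSemidef.one.smul (by positivity)
  · refine psd_le_mul (le_trace (cQ_psd (hQ1' x) B)) ((hQtr x).trans ?_)
    have h1 : (1 : ℝ) ≤ (r : ℝ) ^ 4 := one_le_pow₀ hr1
    nlinarith
  · calc ∑ x, (cQ B (Q1 x)).trace ≤ ∑ _x : X, 2 * b := Finset.sum_le_sum fun x _ => hQtr x
      _ = _ := by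
          simp
          ring

end Pool.Agent.Helper55.SDP
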